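import Pool.Agent.H43.TL2.M125
import Pool.Agent.H43.TL2.M63

/-!
# LB CurveL: curves

As `H36/BPL/CurveK` (helper36), for an arbitrary open part of a curve: if the limits of order at most two of discs are constant then the open part is Picard and Brody
hyperbolic.  The metric is the Fubini-Study metric.
-/

set_option autoImplicit false

open Topology Filter Metric

noncomputable section

namespace Pool.Agent.H36.LB

open Pool.Agent.H17 (PN HolomorphicInto puncturedDisc)
open Pool.Agent.H36.BP hiding kobayashi_of_bound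
open Pool.Agent.H36.BPL
open Pool.Agent.H36.BPB (MD IsLimit LimMod2 ConvAt brody_bound_lim picard_cone_of_bound kobayashi_of_bound)
open Pool.Agent.H17BP (Pr HolP Picard Brody)
open Pool.Agent.H14.KB (ptsOf coneOf_ptsOf)

variable {N : ℕ}

/-- the metric data of the Fubini-Study metric -/
theorem curve_metricL {X K : Set (EN N)} (h0 : (0 : EN N) ∉ X) (hcl : ∀ x ∈ closure X, x ≠ 0 → x ∈ X)
    (hKX : K ⊆ X) (hKs : ∀ x ∈ K, ∀ c : ℂ, c ≠ 0 → c • x ∈ K) (hrel : ∀ x ∈ K, ∀ᶠ y in 𝓝 x, y ∈ X → y ∈ K) 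
    (hur : ∀ (l : Filter ℕ), l.NeBot → ∀ (F : ℕ → ℂ → EN N) (H : ℂ → EN N) (z₀ : ℂ) (s : ℝ), 0 < s →
      (∀ᶠ n in l, Curve K (Metric.ball z₀ s) (F n)) → DifferentiableOn ℂ H (Metric.ball z₀ s) →
      TendstoLocallyUniformlyOn F H l (Metric.ball z₀ s) → H z₀ ≠ 0 → H z₀ ∉ K → ∀ᶠ z in 𝓝 z₀, H z ∉ K)
    (hbd : ∀ (F : ℂ → EN N) (z₀ : ℂ), AnalyticAt ℂ F z₀ → (∀ᶠ z in 𝓝 z₀, F z ∈ X ∧ F z ∉ K) → ∀ᶠ z in 𝓝 z₀, ∃ c : ℂ, F z = c • F z₀) :
    MD K ∅ (fun x v => fs x v) (fun _ => 1) 1 1 (3 / 2) := by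
  have hne : ∀ x ∈ K, x ≠ 0 := fun x hx e => h0 (e ▸ hKX hx)
  refine
  { ne := hne
    smul := hKs
    c₀_pos := one_pos
    C_nonneg := by norm_num
    nonneg := fun x _ v => fs_nonneg x v
    usc := fun x hx v a ha => ((continuousAt_fs (hne x hx) v).eventually_lt continuousAt_const ha).mono fun p hp _ => hp
    inv := fun x hx v c a hc => fs_inv (hne x hx) v hc a
    hom := fun x _ v c => fs_smul_right x v c
    zero := fun F z₀ _ h => absurd h.self_of_nhds.2 (Set.notMem_empty _)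
    sub := ?_
    ρ_nonneg := fun x _ => zero_le_one
    lower := fun x _ v => by simp
    ρ_zero := fun F z₀ _ _ h => ?_
    rel_open := ?_
    hur := hur
    lim := ?_ }
  · intro F z₀ hF hFK hpos
    have h1 := (Sub.fs_curve hF hpos).mul (Sub.norm_rpow hF (hne _ hFK.self_of_nhds) (-1))
    have h2 : -(fs (F z₀) (deriv F z₀)) ^ 2 + -1 * fs (F z₀) (deriv F z₀) ^ 2 / 2 = -(3 / 2 * Pool.Agent.H36.BP.mt (fun x v => fs x v) F z₀ ^ 2) := by
      unfold Pool.Agent.H36.BP.mt
      ring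
    rw [h2] at h1
    exact h1
  · exact absurd h.exists (by rintro ⟨z, hz⟩; exact one_ne_zero hz)
  · intro x hx
    filter_upwards [hrel x hx, isOpen_ne.mem_nhds (hne x hx)] with y hy hy0 hyc
    exact hy (hcl y (closure_mono hKX hyc) hy0)
  · intro l hl F H z₀ s hs hF hlim hH0 hHK ε hε
    have hmem : z₀ ∈ ball z₀ s := mem_ball_self hs
    have hHd : DifferentiableOn ℂ H (ball z₀ s) := hlim.differentiableOn (hF.mono fun n hn => hn.1) isOpen_ball
    have hHa : AnalyticAt ℂ H z₀ := hHd.analyticAt (isOpen_ball.mem_nhds hmem)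
    have hHX : ∀ᶠ z in 𝓝 z₀, H z ∈ X ∧ H z ∉ K := by
      filter_upwards [isOpen_ball.mem_nhds hmem, hHa.continuousAt.eventually_ne hH0] with z hz hz0
      refine ⟨hcl _ ?_ hz0, hHK z hz⟩
      have h1 : Tendsto (fun n => F n z) l (𝓝 (H z)) := hlim.tendsto_at hz
      refine mem_closure_of_tendsto h1 ?_
      filter_upwards [hF] with n hn
      exact hKX (hn.2 z hz)
    have hconst := hbd H z₀ hHa hHX
    -- the derivative of the limit
    have hder : ∃ a : ℂ, deriv H z₀ = a • H z₀ := by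
      obtain ⟨j, hj⟩ : ∃ j, (H z₀) j ≠ 0 := by
        by_contra hcon
        push Not at hcon
        exact hH0 (by ext i; exact hcon i)
      have hcoord : AnalyticAt ℂ (fun w => H w j) z₀ := analyticAt_pi_iff.mp (analyticAt_ofLp hHa) j
      have he : H =ᶠ[𝓝 z₀] fun w => (H w j / H z₀ j) • H z₀ := by
        filter_upwards [hconst] with w hw
        obtain ⟨c, hc⟩ := hw
        have h3 : H w j = c * H z₀ j := by rw [hc]; rfl
        rw [h3, mul_div_cancel_right₀ _ hj]
        exact hc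
      have hd : HasDerivAt (fun w => (H w j / H z₀ j) • H z₀) ((deriv (fun w => H w j) z₀ / H z₀ j) • H z₀) z₀ :=
        (hcoord.differentiableAt.hasDerivAt.div_const _).smul_const _
      exact ⟨_, (he.deriv_eq).trans hd.deriv⟩
    obtain ⟨a, ha⟩ := hder
    have hz : fs (H z₀) (deriv H z₀) = 0 := by
      unfold fs
      rw [(wd_eq_zero hH0).mpr ⟨a, ha⟩, zero_div]
    have h1 : Tendsto (fun n => F n z₀) l (𝓝 (H z₀)) := hlim.tendsto_at hmem
    have hd : TendstoLocallyUniformlyOn (deriv ∘ F) (deriv H) l (ball z₀ s) :=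
      hlim.deriv (hF.mono fun n hn => hn.1) isOpen_ball
    have h2 : Tendsto (fun n => deriv (F n) z₀) l (𝓝 (deriv H z₀)) := hd.tendsto_at hmem
    have h3 : Tendsto (fun n => (F n z₀, deriv (F n) z₀)) l (𝓝 (H z₀, deriv H z₀)) := h1.prodMk_nhds h2
    have h4 := (continuousAt_fs hH0 (deriv H z₀)).tendsto.comp h3
    simp only [hz] at h4
    exact h4.eventually_lt_const hε

variable {V : Type} [NormedAddCommGroup V] [NormedSpace ℂ V]

/-- transport of the hypothesis on the limit curves -/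
theorem limMod2_transportC {V : Type} [NormedAddCommGroup V] [NormedSpace ℂ V] {N : ℕ} (L : V ≃L[ℂ] EN N) {X K T : Set V}
    (hX0 : (0 : V) ∉ X) (hcl' : ∀ x ∈ closure X, x ≠ 0 → x ∈ X) (hK : OpenPart X K) (h : Lim2 X K T) :
    LimMod2 (L.symm ⁻¹' K : Set (EN N)) (L.symm ⁻¹' T) := by
  intro l F H hlim hcl h0K _ hne hord z hzK
  by_contra hzT
  have hclX : ∀ x ∈ closure (L.symm ⁻¹' X : Set (EN N)), x ≠ 0 → x ∈ (L.symm ⁻¹' X : Set (EN N)) := by
    intro x hx hx0
    have h2 : closure (L.symm ⁻¹' X : Set (EN N)) = L.symm ⁻¹' (closure X) := (L.symm.toHomeomorph.preimage_closure X).symm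
    rw [h2] at hx
    exact hcl' _ hx fun h => hx0 (L.symm.map_eq_zero_iff.mp h)
  have hKX : (L.symm ⁻¹' K : Set (EN N)) ⊆ L.symm ⁻¹' X := fun x hx => hK.sub hx
  have hKne : ∀ x ∈ K, x ≠ 0 := fun x hx e => hX0 (e ▸ hK.sub hx)
  have hcur : LimCurve X K l (fun n z => L.symm (F n z)) (fun z => L.symm (H z)) := by
    refine
    { neBot := hlim.neBot
      le_atTop := hlim.le_atTop
      hol := fun z => ⟨fun z => L.symm (H z), ((L.symm : EN N →L[ℂ] V).analyticAt _).comp (hlim.hol.analyticAt z),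
        fun h => hlim.ne z (L.symm.map_eq_zero_iff.mp h), Eventually.of_forall fun w => Pr.refl _⟩
      mem := fun z => hclX _ (closure_mono hKX (hcl z)) (hlim.ne z)
      zero_mem := h0K
      holF := fun n z hz => ⟨fun z => L.symm (F n z),
        ((L.symm : EN N →L[ℂ] V).analyticAt _).comp ((hlim.diff n).analyticAt (isOpen_ball.mem_nhds hz)), ?_,
        Eventually.of_forall fun w => Pr.refl _⟩
      memF := fun n z hz => hlim.mem n z hz
      zero := convP_of_convAt L hlim.le_atTop hlim.hol hlim.ne hlim.diff hlim.zero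
      conv := fun z₀ => (hlim.conv z₀).mono fun z hz => convP_of_convAt L hlim.le_atTop hlim.hol hlim.ne hlim.diff hz }
    exact hKne _ (hlim.mem n z hz)
  have hall := h l _ _ hcur (hord.equiv L.symm) ⟨z, hzT⟩
  obtain ⟨a, b, hab⟩ := hne
  obtain ⟨c, hc, e⟩ := hall a b
  refine hab c (L.symm.injective ?_)
  rw [map_smul]
  exact e

/-- **Curves**: `K` is an open part of the closed cone `X`, and all holomorphic curves in `X ∖ K` are constant.  If all limits of order at most two of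
discs in `K` are constant then all entire curves in `K` are constant and all holomorphic maps of the punctured disc into `K` extend. -/
theorem curve_picardL [FiniteDimensional ℂ V] {X K : Set V} (h0 : (0 : V) ∉ X)
    (hcl : ∀ x ∈ closure X, x ≠ 0 → x ∈ X) (hO : OpenPart X K)
    (hbd : ∀ (F : ℂ → V) (z₀ : ℂ), AnalyticAt ℂ F z₀ → (∀ᶠ z in 𝓝 z₀, F z ∈ X ∧ F z ∉ K) → ∀ᶠ z in 𝓝 z₀, ∃ c : ℂ, F z = c • F z₀)
    (hB : Lim2 X K ∅) : Picard K ∅ ∧ Brody K ∅ := by
  have hKX : K ⊆ X := hO.sub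
  have hKs := hO.smul
  have hrel := hO.rel
  by_cases hKe : ∃ x₁, x₁ ∈ K
  swap
  · refine ⟨fun r hr f hf hfB => ?_, fun f _ hfK _ => absurd ⟨f 0, hfK 0⟩ hKe⟩
    obtain ⟨z₁, hz₁, hz₁r, -⟩ := hfB
    exact absurd ⟨f z₁, (hf z₁ hz₁ hz₁r).2⟩ hKe
  obtain ⟨x₁, hx₁⟩ := hKe
  have hne : ∀ x ∈ K, x ≠ 0 := fun x hx e => h0 (e ▸ hKX hx)
  have hpos : 0 < Module.finrank ℂ V := Module.finrank_pos_iff_exists_ne_zero.mpr ⟨x₁, hne x₁ hx₁⟩
  obtain ⟨N, hN⟩ : ∃ N, Module.finrank ℂ V = N + 1 := ⟨Module.finrank ℂ V - 1, by omega⟩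
  let L : V ≃L[ℂ] EN N := ContinuousLinearEquiv.ofFinrankEq (by rw [hN]; simp)
  set X' : Set (EN N) := L.symm ⁻¹' X with hX'
  set K' : Set (EN N) := L.symm ⁻¹' K with hK'
  have h0' : (0 : EN N) ∉ X' := by
    show L.symm 0 ∉ X
    rwa [map_zero]
  have hcl' : ∀ x ∈ closure X', x ≠ 0 → x ∈ X' := by
    intro x hx hx0
    have h2 : closure (L.symm ⁻¹' X : Set (EN N)) = L.symm ⁻¹' (closure X) := (L.symm.toHomeomorph.preimage_closure X).symm
    rw [hX', h2] at hx
    exact hcl _ hx fun h => hx0 (L.symm.map_eq_zero_iff.mp h)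
  have hKX' : K' ⊆ X' := fun x hx => hKX hx
  have hKs' : ∀ x ∈ K', ∀ c : ℂ, c ≠ 0 → c • x ∈ K' := by
    intro x hx c hc
    show L.symm (c • x) ∈ K
    rw [map_smul]
    exact hKs _ hx c hc
  have hrel' : ∀ x ∈ K', ∀ᶠ y in 𝓝 x, y ∈ X' → y ∈ K' := fun x hx => (L.symm.continuous.tendsto x).eventually (hrel _ hx)
  have hM := curve_metricL h0' hcl' hKX' hKs' hrel' (by
    intro l hl F H z₀ s hs hF hH hlim hH0 h0
    exact hur_openPart hcl hO hl hs (F := fun n z => L.symm (F n z)) (H := fun z => L.symm (H z)) (by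
      filter_upwards [hF] with n hn
      exact ⟨((L.symm : EN N →L[ℂ] V).differentiable).comp_differentiableOn hn.1, fun z hz => hn.2 z hz⟩)
      (((L.symm : EN N →L[ℂ] V).differentiable).comp_differentiableOn hH)
      (tlu_comp hlim hH.continuousOn fun x _ => L.symm.continuous.continuousAt)
      (fun h => hH0 (L.symm.map_eq_zero_iff.mp h)) h0) (by
    intro F z₀ hF hFX
    filter_upwards [hbd (fun z => L.symm (F z)) z₀ (((L.symm : EN N →L[ℂ] V).analyticAt _).comp hF) hFX] with z hz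
    obtain ⟨c, hc⟩ := hz
    refine ⟨c, L.symm.injective ?_⟩
    rw [map_smul]
    exact hc)
  have hbound := brody_bound_lim hM (limMod2_transportC L h0 hcl hO hB)
  refine ⟨?_, ?_⟩
  · refine W_picard (fun h => h0 (hKX h)) hKs (fun x hx => absurd hx (Set.notMem_empty _)) fun f hf hfK hfB => ?_
    obtain ⟨z₁, hz₁, -⟩ := hfB
    obtain ⟨g, hg, hgf⟩ := picard_cone_of_bound hM hbound (fun x hx => absurd hx (Set.notMem_empty _)) (fun x _ hx => absurd hx (Set.notMem_empty _))
      (fun z => toPN L (f z)) (holomorphicInto_toPN L hf) (fun z hz => (toPN_mem L hKs (f z)).mpr (hfK z hz)) ⟨z₁, hz₁, Set.notMem_empty _⟩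
    exact ⟨fun z => ofPN L (g z), holInto_ofPN L hg, fun z hz => by simp only; rw [hgf z hz, ofPN_toPN]⟩
  · intro f hf hfK _ 
    have hK'0 : (0 : EN N) ∉ K' := fun h => h0' (hKX' h)
    have e1 : coneOf (ptsOf K') = K' := coneOf_ptsOf hK'0 hKs'
    have e2 : coneOf (ptsOf (∅ : Set (EN N))) = ∅ := coneOf_ptsOf (Set.notMem_empty _) (fun x hx => absurd hx (Set.notMem_empty _))
    have hM2 : MD (coneOf (ptsOf K')) (coneOf (ptsOf (∅ : Set (EN N)))) (fun x v => fs x v) (fun _ => 1) 1 1 (3 / 2) := by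
      rw [e1, e2]
      exact hM
    obtain ⟨C, hC, hkob⟩ := kobayashi_of_bound hM2 (by
      rw [e1]
      exact hbound)
    -- the map into projective space
    have hf0 : f 0 ≠ 0 := hne _ (hfK 0)
    set p : ℂ → Projectivization ℂ V := fun z => W_pt (f 0) hf0 (f z) with hp
    have hpz : ∀ z, p z = Projectivization.mk ℂ (f z) (hne _ (hfK z)) := fun z => W_pt_eq _ _ (hne _ (hfK z)) ⟨1, one_ne_zero, (one_smul _ _).symm⟩
    have hpK : ∀ z, (p z).rep ∈ K := by
      intro z
      rw [hpz z]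
      obtain ⟨a, ha, h4⟩ := rep_mk (hne _ (hfK z))
      rw [h4]
      exact hKs _ (hfK z) a ha
    have hpH : HolInto p Set.univ := by
      intro z₀ _
      obtain ⟨F, hF, hF0, hFe⟩ := hf z₀
      refine ⟨F, hF, ?_⟩
      filter_upwards [hF.continuousAt.eventually_ne hF0, hFe] with z h1 h2
      exact ⟨h1, W_pt_eq _ _ h1 h2⟩
    set g : ℂ → PN N := fun z => toPN L (p z) with hg
    have hgH : HolomorphicInto g Set.univ := holomorphicInto_toPN L hpH
    have hgK : ∀ z, g z ∈ ptsOf K' := fun z => (toPN_mem L hKs (p z)).mpr (hpK z)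
    -- the derivative vanishes
    have hwd : ∀ (F : ℂ → EN N) (w : ℂ), AnalyticAt ℂ F w → (∀ᶠ z in 𝓝 w, ∃ h : (F z).ofLp ≠ 0, g z = Projectivization.mk ℂ _ h) →
        wd (F w) (deriv F w) = 0 := by
      intro F w hF hFg
      have hFw : F w ≠ 0 := ne_zero_of_ofLp hFg.self_of_nhds.choose
      have hb : ∀ R : ℝ, 0 < R → R * fs (F w) (deriv F w) ≤ C := by
        intro R hR
        have haff : ∀ u : ℂ, AnalyticAt ℂ (fun u : ℂ => w + R * u) u := fun u => analyticAt_const.add (analyticAt_const.mul analyticAt_id)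
        have htd : Tendsto (fun u : ℂ => w + R * u) (𝓝 0) (𝓝 w) := by
          have := (haff 0).continuousAt.tendsto
          simpa using this
        have h5 := hkob (fun u => g (w + R * u)) (fun u => F (w + R * u)) (by
          intro u _
          obtain ⟨φ, hφ, he⟩ := hgH (w + R * u) (Set.mem_univ _)
          exact ⟨fun u => φ (w + R * u), AnalyticAt.comp (g := φ) (f := fun u : ℂ => w + R * u) hφ (haff u),
            (haff u).continuousAt.tendsto.eventually he⟩) (fun u _ => hgK _)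
          (AnalyticAt.comp (g := F) (f := fun u : ℂ => w + R * u) (by simpa using hF) (haff 0)) (htd.eventually hFg)
        have hd : HasDerivAt (fun u : ℂ => F (w + R * u)) ((R : ℂ) • deriv F w) 0 := by
          have h6 : HasDerivAt (fun u : ℂ => w + R * u) (R : ℂ) 0 := by
            simpa using ((hasDerivAt_id (0 : ℂ)).const_mul (R : ℂ)).const_add w
          have h7 : HasDerivAt F (deriv F w) ((fun u : ℂ => w + R * u) 0) := by
            simpa using hF.differentiableAt.hasDerivAt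
          exact h7.scomp 0 h6
        rw [hd.deriv, fs_smul_right, Complex.norm_real, Real.norm_of_nonneg hR.le] at h5
        simpa using h5
      have hfs : fs (F w) (deriv F w) = 0 := by
        by_contra hcon
        have h6 : 0 < fs (F w) (deriv F w) := lt_of_le_of_ne (fs_nonneg _ _) (Ne.symm hcon)
        have h7 := hb ((C + 1) / fs (F w) (deriv F w)) (by positivity)
        rw [div_mul_cancel₀ _ h6.ne'] at h7
        linarith
      unfold fs at hfs
      rcases div_eq_zero_iff.mp hfs with h | h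
      · exact h
      · exact absurd (norm_eq_zero.mp (pow_eq_zero_iff two_ne_zero |>.mp h)) hFw
    obtain ⟨φ, hφ, he⟩ := hgH 0 (Set.mem_univ _)
    obtain ⟨F, hFdef⟩ : ∃ F : ℂ → EN N, F = fun w => (WithLp.toLp 2 (φ w) : EN N) := ⟨_, rfl⟩
    have hFa : AnalyticAt ℂ F 0 := by
      rw [hFdef]
      exact analyticAt_toLp hφ
    have hFφ : ∀ w, (F w).ofLp = φ w := fun w => by rw [hFdef]
    have heF : ∀ᶠ z in 𝓝 (0 : ℂ), ∃ h : (F z).ofLp ≠ 0, g z = Projectivization.mk ℂ _ h := by
      filter_upwards [he] with z hz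
      obtain ⟨h1, h2⟩ := hz
      refine ⟨by rw [hFφ]; exact h1, ?_⟩
      rw [h2]
      congr 1
      exact (hFφ z).symm
    have hF0 : F 0 ≠ 0 := ne_zero_of_ofLp heF.self_of_nhds.choose
    have hloc := const_of_wedge hFa hF0 (by
      filter_upwards [heF.eventually_nhds, hFa.eventually_analyticAt] with w h1 h2
      exact hwd F w h2 h1)
    have hgl : ∀ᶠ w in 𝓝 (0 : ℂ), g w = g 0 := by
      filter_upwards [hloc, heF] with w h1 h2
      obtain ⟨c, hc, h3⟩ := h1
      obtain ⟨h4, h5⟩ := h2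
      obtain ⟨h6, h7⟩ := heF.self_of_nhds
      rw [h5, h7, Projectivization.mk_eq_mk_iff']
      refine ⟨c, ?_⟩
      rw [h3]
      rfl
    have hall : ∀ z, g z = g 0 := fun z => const_identity isPreconnected_univ hgH (Set.mem_univ _) hgl z (Set.mem_univ _)
    have hpall : ∀ z, p z = p 0 := by
      intro z
      rw [← ofPN_toPN L (p z), ← ofPN_toPN L (p 0)]
      exact congrArg _ (hall z)
    intro z w
    have h8 := (hpall z).trans (hpall w).symm
    rw [hpz, hpz] at h8
    exact W_pr_of_mk _ _ h8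

end Pool.Agent.H36.LB
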