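import Pool.Agent.H43.TL2.H36.LB.CurveL
import Pool.Agent.H43.TL2.M117
import Pool.Agent.H43.TL2.M126

/-!
# LB SameL: the same exceptional set, for arbitrary open surfaces

As `Pool.Agent.H62.SA.SameF` (helper17, helper62), with the hypothesis on the limits of discs of order at most two.
-/

set_option autoImplicit false

open Topology Filter MvPolynomial

noncomputable section

namespace Pool.Agent.H36.LB

open Pool.Agent.H17 (PN VanishesAt ZariskiClosedIn HolomorphicInto puncturedDisc)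
open Pool.Agent.H17LG.Variety (FunField IsLogGeneralType)
open Pool.Agent.H62.FC (Homog exists_fin_basis trdeg_mono)
open Pool.Agent.H62.SA (locVar OnBd locCone locCone_smul rep_mem_locCone mk_mem_locVar disc_constF)
open Pool.Agent.H17BP (Surface Pr HolP Picard Brody variety mapIdeal mapIdeal_isPrime exists_X_notMem mk_mem_variety mem_mapIdeal_form vanishesAt_mk le_mapIdeal mapIdeal_homog trdeg_lt eq_of_trdeg_zero mem_variety_mapIdeal rep_mem_cone cone_closed cone_smul' isPreconnected_puncturedDisc extend_of_picard holP_rep)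
open Pool.Agent.H36.BPL (OpenPart analyticAt_form)
open Pool.Agent.H36.BP (OrdTwo)
open Pool.Agent.H13.SM (conTan)
open Pool.Agent.H13.OT (OrderTwo mk_eq_of_pr pr_of_mk_eq holomorphicInto_mk OrdTwo.orderTwo)
open Pool.Agent.H14.KB (KobayashiHyperbolicModulo)
open Pool.Agent.H68.KR (cone)

variable {N : ℕ} {P I : Ideal (MvPolynomial (Fin (N + 1)) ℂ)} {s : ℕ} {G : Fin s → MvPolynomial (Fin (N + 1)) ℂ} {e : Fin s → ℕ}

/-- A closed subvariety meets the open part in an open part. -/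
theorem openPart_mono (hO : OpenPart (cone P) (locCone P G)) (hI : Homog I) (hG : ∀ m, (G m).IsHomogeneous (e m)) (hPI : P ≤ I) :
    OpenPart (cone I) (locCone I G) where
  sub := fun x hx => hx.1
  smul := locCone_smul hI hG
  eqn x hx := by
    have hsub : ∀ y ∈ cone I, y ∈ cone P := fun y hy => ⟨hy.1, fun Q hQ => hy.2 Q (hPI hQ)⟩
    obtain ⟨h, hh, he⟩ := hO.eqn x (hsub x hx)
    refine ⟨h, hh, ?_⟩
    filter_upwards [he] with y hy hyI
    rw [← hy (hsub y hyI)]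
    constructor
    · intro h1 h2
      exact h1 ⟨hyI, h2.2⟩
    · intro h1 h2
      exact h1 ⟨hsub y hyI, h2.2⟩

/-- A limit curve in the cone gives a limit curve in `ℙ^N`. -/
theorem isLimitPN_of_limCurve {U : Set (PN N)} {X K : Set (Fin (N + 1) → ℂ)} (h0 : ∀ x ∈ X, x ≠ 0)
    (hXs : ∀ x ∈ X, ∀ c : ℂ, c ≠ 0 → c • x ∈ X) (hXc : ∀ x ∈ closure X, x ≠ 0 → x ∈ X) (hK : OpenPart X K)
    (hU : ∀ (x : Fin (N + 1) → ℂ) (hx : x ≠ 0), Projectivization.mk ℂ x hx ∈ U ↔ x ∈ K) {l : Filter ℕ}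
    {F : ℕ → ℂ → Fin (N + 1) → ℂ} {f : ℂ → Fin (N + 1) → ℂ} (hf : LimCurve X K l F f) (hf0 : ∀ z, f z ≠ 0) :
    IsLimitPN U l (fun n z => pt (Projectivization.mk ℂ (f 0) (hf0 0)) (F n z)) (fun z => Projectivization.mk ℂ (f z) (hf0 z)) := by
  have hF0 : ∀ n : ℕ, ∀ z ∈ Metric.ball (0 : ℂ) (n + 1), F n z ≠ 0 := fun n z hz => h0 _ (hK.sub (hf.memF n z hz))
  set x₀ : PN N := Projectivization.mk ℂ (f 0) (hf0 0) with hx₀
  have hev : ∀ (z₀ : ℂ) (s : ℝ), ∀ᶠ n in l, ∀ z ∈ Metric.ball z₀ s, F n z ≠ 0 := by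
    intro z₀ s
    obtain ⟨n₀, hn₀⟩ := exists_nat_ge (‖z₀‖ + s)
    filter_upwards [hf.le_atTop (eventually_ge_atTop n₀)] with n hn w hw
    refine hF0 n w ?_
    rw [mem_ball_zero_iff]
    have h2 : ‖w - z₀‖ < s := by simpa [dist_eq_norm] using hw
    have h3 : ‖w‖ ≤ ‖w - z₀‖ + ‖z₀‖ := by
      have := norm_add_le (w - z₀) z₀
      rwa [sub_add_cancel] at this
    have h4 : (n₀ : ℝ) ≤ n := by exact_mod_cast hn
    linarith
  refine
    { neBot := hf.neBot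
      le_atTop := hf.le_atTop
      hol := holomorphicInto_mk hf0 hf.hol
      zero_mem := (hU _ _).2 hf.zero_mem
      holF := ?_
      memF := ?_
      zero := convPN_of_convP hf0 hf.zero (hev 0)
      conv := fun z₀ => (hf.conv z₀).mono fun z hz => convPN_of_convP hf0 hz (hev z)
      mem_of_conv := ?_ }
  · intro n z hz
    obtain ⟨G, hG, hG0, he⟩ := hf.holF n z hz
    refine ⟨G, hG, ?_⟩
    filter_upwards [he, hG.continuousAt.eventually_ne hG0] with y h1 h2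
    exact ⟨h2, pt_eq h2 h1⟩
  · intro n z hz
    have h1 := hF0 n z hz
    show pt x₀ (F n z) ∈ U
    rw [pt_eq h1 (Pool.Agent.H17BP.Pr.refl _)]
    exact (hU _ h1).2 (hf.memF n z hz)
  · intro z hz
    refine (hU _ _).2 ?_
    obtain ⟨s, Φ, Φ₀, hs, hΦ, hΦ₀, hf', hlim⟩ := hz
    refine hf.mem_of_conv hXs hXc hK (z := z) ⟨s, Φ, Φ₀, hs, ?_, hΦ₀, fun w hw => ?_, hlim⟩
    · filter_upwards [hΦ, hev z s] with n hn hn2
      refine ⟨hn.1, fun w hw => ?_⟩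
      obtain ⟨h1, h2⟩ := hn.2 w hw
      rw [pt_eq (hn2 w hw) (Pool.Agent.H17BP.Pr.refl _)] at h2
      exact pr_of_mk_eq _ _ h2
    · obtain ⟨h1, h2⟩ := hf' w hw
      exact ⟨h1, pr_of_mk_eq _ _ h2⟩

/-- a larger open set -/
theorem IsLimitPN.mono {U U' : Set (PN N)} (h : U ⊆ U') {l : Filter ℕ} {F : ℕ → ℂ → PN N} {f : ℂ → PN N} (hf : IsLimitPN U l F f) :
    IsLimitPN U' l F f :=
  ⟨hf.neBot, hf.le_atTop, hf.hol, h hf.zero_mem, hf.holF, fun n z hz => h (hf.memF n z hz), hf.zero, hf.conv, fun z hz => h (hf.mem_of_conv z hz)⟩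

/-- Holomorphic maps to an open curve which is not contained in the exceptional set. -/
theorem curve_caseL [P.IsPrime] (hP : Homog P) {z : Fin 2 → FunField P} (hz : IsTranscendenceBasis ℂ z)
    (hG : ∀ m, (G m).IsHomogeneous (e m)) (hO : OpenPart (cone P) (locCone P G))
    {S : Set (MvPolynomial (Fin (N + 1)) ℂ)} (hS : ∀ Q ∈ S, ∃ n, Q.IsHomogeneous n)
    (hbr : LimModPN (locVar P G) {x | x ∈ locVar P G ∧ ∀ Q ∈ S, VanishesAt Q x})
    {d : ℕ} {Q : MvPolynomial (Fin (N + 1)) ℂ} (hQ : Q.IsHomogeneous d) (hQP : Q ∉ P) {U : Set ℂ} (hUo : IsOpen U)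
    (hUc : IsPreconnected U) {f : ℂ → PN N} (hf : HolomorphicInto f U) (hfX : ∀ z ∈ U, f z ∈ locVar P G)
    (hfQ : ∀ z ∈ U, VanishesAt Q (f z))
    (hfS : ∃ z ∈ U, f z ∉ {x | x ∈ locVar P G ∧ ∀ Q ∈ S, VanishesAt Q x}) :
    ∃ I : Ideal (MvPolynomial (Fin (N + 1)) ℂ), Homog I ∧ (∀ z ∈ U, (f z).rep ∈ locCone I G) ∧
      Picard (locCone I G) ∅ ∧ Brody (locCone I G) ∅ := by
  obtain ⟨z₁, hz₁, hz₁S⟩ := hfS
  have hne : U.Nonempty := ⟨z₁, hz₁⟩
  set I := mapIdeal f U with hI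
  have hIp : I.IsPrime := mapIdeal_isPrime hUo hUc hne hf
  have hIh : Homog I := mapIdeal_homog
  have hfP : ∀ z ∈ U, f z ∈ variety P := fun z hz => ⟨(hfX z hz).1, fun m => m.elim0⟩
  have hPI : P ≤ I := le_mapIdeal hP hfP
  have hIX : ∃ i, (X i : MvPolynomial (Fin (N + 1)) ℂ) ∉ I := exists_X_notMem hne
  obtain ⟨w, hw⟩ := exists_fin_basis (P := I) hIX
  have hw2 : w < 2 := trdeg_lt hP hIh hPI (fun h => hQP (h ((mem_mapIdeal_form hQ).2 hfQ))) hIX ⟨z, hz⟩ hw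
  obtain ⟨-, m, hm⟩ := hfX z₁ hz₁
  have hGI : G m ∉ I := fun h1 => hm ((mem_mapIdeal_form (hG m)).1 h1 z₁ hz₁)
  obtain ⟨R, hRS, hRz⟩ : ∃ R ∈ S, ¬ VanishesAt R (f z₁) := by
    by_contra hcon
    push Not at hcon
    exact hz₁S ⟨hfX z₁ hz₁, hcon⟩
  obtain ⟨n, hR⟩ := hS R hRS
  have hRI : R ∉ I := fun h => hRz ((mem_mapIdeal_form hR).1 h z₁ hz₁)
  have hOI : OpenPart (cone I) (locCone I G) := openPart_mono hO hIh hG hPI
  refine ⟨I, hIh, fun z hz => (rep_mem_locCone hIh).2 ⟨(mem_variety_mapIdeal hz).1, (hfX z hz).2⟩, ?_⟩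
  refine curve_picardL (X := cone I) (K := locCone I G) (fun h => h.1 rfl) cone_closed hOI (fun f z₀ hf h1 => ?_) ?_
  · filter_upwards [disc_constF hIh hw hw2 hG hGI hf h1] with z hz
    obtain ⟨c, -, hc⟩ := hz
    exact ⟨c, hc⟩
  -- the limits of order two are constant
  rintro l F h₁ hh hord ⟨z₂, -⟩ a c
  by_contra hac
  have hh0 : ∀ z, h₁ z ≠ 0 := fun z => (hh.mem z).1
  have hlim := isLimitPN_of_limCurve (U := locVar I G) (fun x hx => hx.1) (cone_smul' hIh) cone_closed hOI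
    (fun x hx0 => mk_mem_locVar hIh hG hx0) hh hh0
  let g : ℂ → PN N := fun z => Projectivization.mk ℂ (h₁ z) (hh0 z)
  have hg : HolomorphicInto g Set.univ := holomorphicInto_mk hh0 hh.hol
  have hsub : locVar I G ⊆ locVar P G := fun x hx => ⟨fun Q hQ n hn => hx.1 Q (hPI hQ) n hn, hx.2⟩
  have hgS := hbr l _ g (hlim.mono hsub) (OrdTwo.orderTwo hh0 hh.hol hord) ⟨a, c, fun he => hac (pr_of_mk_eq _ _ he)⟩
  have hJp : (mapIdeal g Set.univ).IsPrime := mapIdeal_isPrime isOpen_univ isPreconnected_univ Set.univ_nonempty hg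
  have hJX := exists_X_notMem (f := g) Set.univ_nonempty
  have hgI : ∀ z, g z ∈ variety I := fun z => (mk_mem_variety hIh (hh0 z) (cone_smul' hIh)).2 (hh.mem z)
  have hIJ : I ≤ mapIdeal g Set.univ := le_mapIdeal hIh fun z _ => hgI z
  have hRJ : R ∈ mapIdeal g Set.univ := by
    rw [mem_mapIdeal_form hR]
    have h0 : ∀ᶠ w in 𝓝 (0 : ℂ), ∀ Q ∈ ({R} : Set (MvPolynomial (Fin (N + 1)) ℂ)), VanishesAt Q (g w) := by
      have h1 := mem_near (X := cone I) (K := locCone I G) (cone_smul' hIh) hOI (hh.hol 0)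
        (Filter.Eventually.of_forall hh.mem) hh.zero_mem
      filter_upwards [h1] with w hw Q hQ
      rw [Set.mem_singleton_iff.1 hQ]
      exact (hgS w (hsub ((mk_mem_locVar hIh hG (hh0 w)).2 hw))).2 R hRS
    intro z _
    exact Pool.Agent.H36.BP.vanish_identity isPreconnected_univ hg (S := {R}) (fun Q hQ => ⟨n, by
      rw [Set.mem_singleton_iff.1 hQ]
      exact hR⟩) (Set.mem_univ 0) h0 z (Set.mem_univ z) R rfl
  obtain ⟨w', hw'⟩ := exists_fin_basis (P := mapIdeal g Set.univ) hJX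
  have hlt : w' < w := trdeg_lt hIh mapIdeal_homog hIJ (fun h => hRI (h hRJ)) hJX hw hw'
  have hw0 : w' = 0 := by omega
  subst hw0
  exact hac (pr_of_mk_eq _ _ (eq_of_trdeg_zero mapIdeal_homog hJX hw' (g a) (mem_variety_mapIdeal (Set.mem_univ a))
    (g c) (mem_variety_mapIdeal (Set.mem_univ c))))

/-- The extension theorem with the same exceptional set. -/
theorem picard_sameL [P.IsPrime] (hP : Homog P) {z : Fin 2 → FunField P} (hz : IsTranscendenceBasis ℂ z)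
    (hG : ∀ m, (G m).IsHomogeneous (e m)) (hO : OpenPart (cone P) (locCone P G)) {Ξ : Set (PN N)} (hΞ : ZariskiClosedIn (locVar P G) Ξ)
    (hbr : LimModPN (locVar P G) Ξ)
    {d : ℕ} {Q : MvPolynomial (Fin (N + 1)) ℂ} (hQ : Q.IsHomogeneous d) (hQP : Q ∉ P)
    (hpic : ∀ f : ℂ → PN N, HolomorphicInto f puncturedDisc → (∀ z ∈ puncturedDisc, f z ∈ locVar P G) →
      (∃ z ∈ puncturedDisc, ¬ VanishesAt Q (f z)) →
      ∃ g : ℂ → PN N, HolomorphicInto g (Metric.ball 0 1) ∧ ∀ z ∈ puncturedDisc, g z = f z)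
    {f : ℂ → PN N} (hf : HolomorphicInto f puncturedDisc) (hfX : ∀ z ∈ puncturedDisc, f z ∈ locVar P G)
    (hfΞ : ∃ z ∈ puncturedDisc, f z ∉ Ξ) :
    ∃ g : ℂ → PN N, HolomorphicInto g (Metric.ball 0 1) ∧ ∀ z ∈ puncturedDisc, g z = f z := by
  by_cases hfQ : ∃ z ∈ puncturedDisc, ¬ VanishesAt Q (f z)
  · exact hpic f hf hfX hfQ
  push Not at hfQ
  obtain ⟨S, hS, rfl⟩ := hΞ
  obtain ⟨I, -, hK, hpI, -⟩ := curve_caseL hP hz hG hO hS hbr hQ hQP (Metric.isOpen_ball.sdiff isClosed_singleton)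
    isPreconnected_puncturedDisc hf hfX hfQ hfΞ
  obtain ⟨z₁, hz₁, -⟩ := hfΞ
  exact extend_of_picard hpI hf hK ⟨z₁, hz₁, Set.notMem_empty _⟩

/-- Entire curves of arbitrary order, with the same exceptional set. -/
theorem brody_sameL [P.IsPrime] (hP : Homog P) {z : Fin 2 → FunField P} (hz : IsTranscendenceBasis ℂ z)
    (hG : ∀ m, (G m).IsHomogeneous (e m)) (hO : OpenPart (cone P) (locCone P G)) {Ξ : Set (PN N)} (hΞ : ZariskiClosedIn (locVar P G) Ξ)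
    (hbr : LimModPN (locVar P G) Ξ)
    {d : ℕ} {Q : MvPolynomial (Fin (N + 1)) ℂ} (hQ : Q.IsHomogeneous d) (hQP : Q ∉ P)
    (hpic : ∀ f : ℂ → PN N, HolomorphicInto f Set.univ → (∀ z, f z ∈ locVar P G) →
      (∃ z w, f z ≠ f w) → ∀ z, VanishesAt Q (f z))
    {f : ℂ → PN N} (hf : HolomorphicInto f Set.univ) (hfX : ∀ z, f z ∈ locVar P G)
    (hne : ∃ z w, f z ≠ f w) : ∀ z, f z ∈ Ξ := by
  intro z₀
  by_contra hcon
  obtain ⟨S, hS, rfl⟩ := hΞ
  obtain ⟨I, -, hK, -, hbI⟩ := curve_caseL hP hz hG hO hS hbr hQ hQP isOpen_univ isPreconnected_univ hf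
    (fun z _ => hfX z) (fun z _ => hpic f hf hfX hne z) ⟨z₀, Set.mem_univ _, hcon⟩
  obtain ⟨a, c, hac⟩ := hne
  apply hac
  have h1 := hbI (fun z => (f z).rep) (fun z => holP_rep hf (Set.mem_univ z)) (fun z => hK z (Set.mem_univ z))
    ⟨z₀, Set.notMem_empty _⟩ a c
  have h2 := h1.mk_eq (f a).rep_nonzero (f c).rep_nonzero
  rwa [Projectivization.mk_rep, Projectivization.mk_rep] at h2

/-- **The main theorem, with the exceptional set `Ξ`.** -/
theorem lim_main [hPp : P.IsPrime] (hP : Homog P) {z : Fin 2 → FunField P} (hz : IsTranscendenceBasis ℂ z)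
    (hsm : ∀ y : Fin (N + 1) → ℂ, y ≠ 0 → (∀ Q ∈ P, eval y Q = 0) → Module.finrank ℂ (conTan P y) ≤ 3)
    (hG : ∀ m, (G m).IsHomogeneous (e m)) (hO : OpenPart (cone P) (locCone P G))
    (hgt : IsLogGeneralType (K := FunField P) (k := 2) (OnBd P G))
    {Ξ : Set (PN N)} (hΞ : ZariskiClosedIn (locVar P G) Ξ) (hne : Ξ ≠ locVar P G) (hbr : LimModPN (locVar P G) Ξ) :
    (∀ f : ℂ → PN N, HolomorphicInto f Set.univ → (∀ z, f z ∈ locVar P G) →
      (∃ z w, f z ≠ f w) → ∀ z, f z ∈ Ξ) ∧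
    (∀ f : ℂ → PN N, HolomorphicInto f puncturedDisc → (∀ z ∈ puncturedDisc, f z ∈ locVar P G) →
      (∃ z ∈ puncturedDisc, f z ∉ Ξ) →
      ∃ g : ℂ → PN N, HolomorphicInto g (Metric.ball 0 1) ∧ ∀ z ∈ puncturedDisc, g z = f z) ∧
    ∃ (Q : MvPolynomial (Fin (N + 1)) ℂ) (D : ℕ), Q.IsHomogeneous D ∧
      (∃ x ∈ locVar P G, ¬ VanishesAt Q x) ∧ (∀ x ∈ Ξ, VanishesAt Q x) ∧
      KobayashiHyperbolicModulo (locVar P G) Q D := by
  obtain ⟨Q, D, hQ, ⟨x, hx, hxQ⟩, hQΞ, hkob, hpic⟩ := lim_surface hP hz hsm hG hO hgt hΞ hne hbr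
  have hQP : Q ∉ P := fun h => hxQ (hx.1 Q h D hQ)
  refine ⟨fun f hf hfX hfn => brody_sameL hP hz hG hO hΞ hbr hQ hQP
      (fun f hf hfX hfn z => Pool.Agent.H14.KB.brody_of_kobayashi hQ hkob hf hfX hfn z) hf hfX hfn,
    fun f hf hfX hfΞ => picard_sameL hP hz hG hO hΞ hbr hQ hQP hpic hf hfX hfΞ,
    Q, D, hQ, ⟨x, hx, hxQ⟩, hQΞ, hkob⟩

end Pool.Agent.H36.LB
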